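import Mathlib
import Pool.Agent.E8helper53.QF.Main

/-!
# Common `ℚ`-form of the `ℓ`-adic monodromy groups: the Tate classes of codimension two on `A^4` decide

Let `A` be an abelian variety over a number field `F`, `W = H_1(A(ℂ), ℚ)`, `Γ` the absolute Galois
group of `F`. For each prime number `ℓ` the data `D ℓ` (`Realization`) consist of the action `ρ` of
`Γ` on the rational Tate module `V_ℓ = ℚ_ℓ ⊗ W` (it has a stable lattice and, by the theorem of
Faltings, it is semisimple for all subgroups of finite index), the cyclotomic character `χ` and a Weil
pairing `ω`. The cohomology of `A^n` in degree `r` is the space of the alternating forms on `W^n` in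
`r` variables; an `ℓ`-adic class of degree `2 m` is a Tate class (`TateOn`) if a subgroup of finite
index of `Γ` acts on it by the `m`-th power of the cyclotomic character. These are the invariants of
the identity component of the Zariski closure `G_ℓ` of the image of `Γ` (or of the Galois group of any
finite extension of `F`).

The identity component `G_ℓ°` is reductive and contains the homotheties, so that it is determined by
the Tate classes on the powers of `A`; its Lie algebra is the sum of the scalars and of the Lie
algebra of all endomorphisms of `V_ℓ` that annihilate all Tate classes on all powers of `A` (`InLie`).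
So for `ℓ₀` given a common `ℚ`-form of the groups `G_ℓ°`, for all `ℓ ≥ ℓ₀` (Q1), exists if and only
if the Lie algebras have a common `ℚ`-form (`LieHasCommonForm`): there is a rational subspace `𝔤` of
`End(W)` with `ℚ_ℓ ⊗ 𝔤 = InLie` for all `ℓ ≥ ℓ₀` (a Lie algebra over `ℚ` is algebraic if it becomes
algebraic over `ℚ_ℓ`). This is the case if and only if for all `n` and `m` the spaces of the Tate
classes of codimension `m` on `A^n` have a common `ℚ`-form (`HaveCommonForm`): a rational subspace `T`
of the cohomology of `A^n` such that `ℚ_ℓ ⊗ T` is the space of the `ℓ`-adic Tate classes for all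
`ℓ ≥ ℓ₀`.

**Theorem.** Suppose that `A` has no factors of type IV in Albert's classification (`NoTypeFour`), or
assume the theorem on centres (Vasiu, Ullmo-Yafaev; `CentreIsCommon`). If the Tate classes of
codimension TWO on the FOURTH power `A^4` have a common `ℚ`-form then the Tate classes of all
codimensions on all powers of `A` and the Lie algebras of the `ℓ`-adic monodromy groups have a common
`ℚ`-form.

So Q1 for `A` is equivalent to the statement that the subspace of the Tate classes in the single
cohomology group `H^4(A^4, ℚ_ℓ)` is defined over `ℚ` and independent of `ℓ`.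

The proof. Let `𝔤` be the space of the rational endomorphisms of `W` which annihilate the rational
classes which are Tate classes for all `ℓ ≥ ℓ₀`. An element of `𝔤` annihilates the Tate classes of
codimension two on `A^4` for each `ℓ ≥ ℓ₀`; so (`core'`, the reason is that the Lie algebra `InLie`
has a nondegenerate trace form, whose Casimir tensor is a Tate class of codimension two on `A^4`) it
is the sum of an element of `InLie` and of a skew element of the centre of `End(A) ⊗ ℚ_ℓ`, which is
zero. Conversely the rational components of an element of `InLie` are in `𝔤`. So `InLie` is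
`ℚ_ℓ ⊗ 𝔤`. Now let `F` be a Tate class for a prime number `ℓ`. Its rational components are
annihilated by `𝔤`, hence by `InLie` for all primes `ℓ' ≥ ℓ₀`. Finally a class annihilated by
`InLie` is a Tate class (`tateOn_iff`): for each element `γ` of `Γ` the rational additive functions of
the eigenvalues of `γ` and the logarithm of its unipotent part are in `InLie` (over an algebraic
closure), so that the class is fixed, up to the twist, by a power of `γ`, and by `γ` itself if `γ` is
in a neat subgroup of finite index.
-/

set_option autoImplicit false

namespace Pool.Agent.Results.MP_e965d0_ag.CodimensionTwoFormsH53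

open Pool.Agent.E8helper1.CT Pool.Agent.E8helper53.QF

theorem result {W Γ : Type} [AddCommGroup W] [Module ℚ W] [FiniteDimensional ℚ W] [Group Γ]
    (D : ∀ (ℓ : ℕ) [Fact ℓ.Prime], Realization ℓ W Γ) (ℓ₀ : ℕ)
    (hC : ∀ (ℓ : ℕ) [Fact ℓ.Prime], ℓ₀ ≤ ℓ →
      NoTypeFour (D ℓ).ρ (D ℓ).ω ∨ CentreIsCommon D ℓ₀ ℓ) :
    List.TFAE [HaveCommonForm D ℓ₀ 4 2, ∀ n m, HaveCommonForm D ℓ₀ n m, LieHasCommonForm D ℓ₀] := by
  tfae_have 1 → 3 := fun h => lie_of_two hC h
  tfae_have 3 → 2 := fun h n m => all_of_lie h n m
  tfae_have 2 → 1 := fun h => h 4 2
  tfae_finish

end Pool.Agent.Results.MP_e965d0_ag.CodimensionTwoFormsH53
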