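import Pool.Agent.E8helper24.HP.OneC

/-!
# Common `ℚ`-form of the `ℓ`-adic monodromy groups: one explicit power decides

Let `F` be a number field embedded in the field of complex numbers and consider the cohomology
`H(Y(ℂ), ℚ)` of the smooth projective varieties `Y` over `F`. For each prime number `ℓ` the Galois
group `Γ` acts on `ℚ_ℓ ⊗ H(Y(ℂ), ℚ)`; the Tate classes for `ℓ` are the classes fixed by a subgroup
of finite index of `Γ` (if the Tate twist is taken into account). We fix a set `ι` of prime numbers,
for instance all prime numbers `ℓ ≥ ℓ₀`. A rational class is a *common Tate class* if it is a Tate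
class for all primes in `ι`. For an abelian variety `A` the common `ℚ`-form of the question exists
if and only if, for `ι = {ℓ ≥ ℓ₀}`, `ℓ₀` large, all Tate classes for all `ℓ` in `ι` on all powers
`A^n` are linear combinations of common Tate classes (the identity components of the monodromy groups
are reductive by the theorem of Faltings, hence determined by their invariants).

Let `X` be a variety of dimension `d` with `b = dim H(X) > 0`, put

`M = 2 b! ((2 d + 1) b!) ^ (b - 1)`

and let `m` be a natural number with `m ≥ b ^ 3 M ^ 2 log (2 b M + 1)`. Let `i` be a prime in `ι` for
which the action on the cohomology of `X` is semisimple (for abelian varieties: the theorem of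
Faltings) and has the usual properties: it is integral, and the Frobenius elements, with their known
properties (Weil conjectures, slopes), are dense (Chebotarev).

**Theorem.** If all Tate classes for `i` on the SINGLE variety `X^(2m)` are linear combinations of
common Tate classes, then the same is true for ALL powers `X^n`. If not, then the common Tate classes
account for at most `(1 / 2 + C log (n + 2) / (n + 1))` of the Tate classes for `i` on
`X^(n+1) × Z × Z`, for ALL `n` and ALL varieties `Z`, where `C = (16 m b ^ (4 m + 2)) ^ (b ² + 2)`.

So the question for an abelian variety `A` (of any type) is decided by the cohomology of one power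
`A^(2m)`, where `m` depends only on `dim A`: the common `ℚ`-form exists if and only if for all large
prime numbers `ℓ` the `ℓ`-adic Tate classes on `A^(2m)` are linear combinations of common Tate
classes; and for this it is sufficient that the common Tate classes make up 51 percent of the Tate
classes on one variety `A^(n+1) × Z × Z`, with an explicit `n`. The level `m` does not depend on `ℓ`,
on the monodromy group, or on the field of definition.

The proof. The theorem that one explicit power decides the Tate conjecture for all powers (hand-in
`OnePowerAnyFieldH1` for MP_0fca13_ag, and its parts) is extended from the system of the algebraic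
cycles to arbitrary systems of Tate classes which are stable under products, pull-backs and
push-forwards, and it is applied to the system of the common Tate classes with coefficients extended
to `L_i`; here the rational structure of the common classes is used only to define the system. The
second part is an explicit quantization law: the operators given by common Tate classes from
`X^(2m)` to `X^(n+1) × Z × Z` applied to a missed Tate class give, up to a fraction
`log (n + 2) / (n + 1)`, a second copy of the space of the common classes.
-/

open CategoryTheory AlgebraicGeometry

universe u

namespace Pool.Agent.Results.MP_e965d0_ag.OnePowerH24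

open Module
open Pool.Agent.H914 Pool.Agent.H914.VarClass Pool.Agent.H914.VarClass.Obj
  Pool.Agent.H914.WeilCohomology Pool.Agent.E8helper24.QF
open Pool.Agent.Y133.Half (pw)
open Pool.Agent.E8helper24.INF.Drb (rankBy)
open Pool.Agent.E8helper24.HP (AtMostHalf constant IsEtale)
open Pool.Agent.E8helper1.TPQ (exponent)

variable {k : Type u} [Field k] {𝒱 : VarClass k} {ops : CycleOps 𝒱}

/-- **One explicit power decides whether all Tate classes are combinations of common Tate
classes.** -/
theorem result {ι Γ : Type} [Group Γ] {W : WeilCohomology.{u, 0} ops} {L : ι → Type}
    [∀ i, Field (L i)] [∀ i, Algebra W.K (L i)] (A : ∀ i, GalAction Γ W (L i)) (i : ι)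
    (X : 𝒱.Obj) (hX : 0 < finrank W.K (W.H X)) {ℓ : ℕ} [Fact ℓ.Prime] (φ : L i ≃+* ℚ_[ℓ])
    (hA : IsEtale (A i) X φ) (M : ℕ) (hM : M = exponent (finrank W.K (W.H X)) X.dim) (m : ℕ)
    (hm : (finrank W.K (W.H X) : ℝ) ^ 3 * (M : ℝ) ^ 2 *
      Real.log (2 * finrank W.K (W.H X) * M + 1) ≤ m) :
    (DefinedOverQ A i (pw X (2 * m - 1)) → ∀ n, DefinedOverQ A i (pw X n)) ∧
    (¬ DefinedOverQ A i (pw X (2 * m - 1)) → ∀ Z : 𝒱.Obj,
      AtMostHalf (fun n => rankBy (IsCommon A) ((pw X n).prod (Z.prod Z)))
        (fun n => tateDim (A i) ((pw X n).prod (Z.prod Z)))
        (constant (finrank W.K (W.H X)) m)) :=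
  Pool.Agent.E8helper24.HP.Common.common_law A i hX φ hA M hM m hm

end Pool.Agent.Results.MP_e965d0_ag.OnePowerH24
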