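import Pool.Agent.E8helper24.HP.Common

/-!
# Common `ℚ`-form of the `ℓ`-adic monodromy groups: an explicit quantization law

Let `F` be a number field embedded in the field of complex numbers and consider the cohomology
`H(Y(ℂ), ℚ)` of the smooth projective varieties `Y` over `F`. For each prime number `ℓ` the Galois
group `Γ` acts on `ℚ_ℓ ⊗ H(Y(ℂ), ℚ)`; the Tate classes for `ℓ` are the classes fixed by a subgroup
of finite index of `Γ` (if the Tate twist is taken into account). We fix a set `ι` of prime numbers,
for instance all prime numbers `ℓ ≥ ℓ₀`. A rational class is a *common Tate class* if it is a Tate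
class for all primes in `ι`. For an abelian variety `A` the common `ℚ`-form of the question exists
if and only if, for `ι = {ℓ ≥ ℓ₀}`, `ℓ₀` large, all Tate classes for all `ℓ` in `ι` on all powers
`A^n` are linear combinations of common Tate classes.

Let `a(Y)` be the rank of the intersection form on the common Tate classes on `Y` and `t(Y)` the
dimension of the space of the Tate classes for the prime `i` in `ι` on `Y`. Let `X` be a variety
with `b = dim H(X) > 0` and `m ≥ 1` a natural number.

**Theorem.**

1. If `a(X^(2m)) = t(X^(2m))` then all Tate classes for `i` on `X^(2m)` are linear combinations, with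
   coefficients in `L_i`, of common Tate classes.
2. Let `r ≥ 1` be a natural number. If `(r - 1) a(X^(2m)) < t(X^(2m))` for the single variety
   `X^(2m)`, then for ALL `n` and for ALL varieties `Z`
   `a(X^(n+1) × Z × Z) ≤ (1 / r + C log (n + 2) / (n + 1)) t(X^(n+1) × Z × Z)`
   with the explicit constant `C = (16 m b ^ (4 m + 2)) ^ (b ² + 2)`, which depends only on `b` and
   on `m`, but not on `r`.

For `r = 2` this is a 51 percent law: if some Tate class on `X^(2m)` is not a combination of common
Tate classes then about one half of all Tate classes on all varieties `X^(n+1) × Z × Z` is missed;
in order to prove that all Tate classes for `i` on `X^(2m)` are defined over `ℚ` it is sufficient to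
find common Tate classes which make up 51 percent of the Tate classes for `i` on ONE variety
`X^(n+1) × Z × Z`, where `n` is any number with `C log (n + 2) / (n + 1) < 1 / 100`. In the same way,
if less than half of the Tate classes on `X^(2m)` are accounted for, then at most 34 percent on all
these varieties, and so on: the possible proportions are the numbers `1 / r`.

The case `X = A`, `m = 2` (so that `C = (32 b ^ 10) ^ (b ² + 2)`) decides the question for an abelian
variety `A` without factors of type IV: for those the common `ℚ`-form exists if and only if for all
large `ℓ` the Tate classes on `A^4` are combinations of common Tate classes (a hand-in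
`CodimensionTwoFormsH53` for this problem).

The theorem holds for arbitrary families of actions of a group on a cohomology theory, after
extensions of the coefficients; nothing is assumed about semisimplicity, the Künneth components of
the diagonal, the hard Lefschetz theorem or a polarization.

The proof. The common Tate classes form a system `S` of classes which is stable under products,
pull-backs and push-forwards, contained in the system `T` of the Tate classes for `i`. The operators
in `S` from `X^(2m)` to `X^(n+1) × Z × Z` map Tate classes to Tate classes. Since more than
`(r - 1) a` Tate classes on `X^(2m)` are available, operators with ranks of sum at least `r` are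
needed in order to reach all of them, and the classes on `X^(n+1) × Z × Z` which come from these
operators are, up to a fraction `log (n + 2) / (n + 1)`, `r` independent copies of the common Tate
classes there, because the ranks `a` grow with the maximal possible rate from one power to the next
except if there are very few common Tate classes. All estimates are explicit.
-/

open CategoryTheory AlgebraicGeometry

universe u

namespace Pool.Agent.Results.MP_e965d0_ag.QuantizationH24

open Module
open Pool.Agent.H914 Pool.Agent.H914.VarClass Pool.Agent.H914.VarClass.Obj
  Pool.Agent.H914.WeilCohomology Pool.Agent.E8helper24.QF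
open Pool.Agent.Y133.Half (pw)
open Pool.Agent.E8helper24.INF.Drb (rankBy)
open Pool.Agent.E8helper24.HP (AtMostOneOver constant)

variable {k : Type u} [Field k] {𝒱 : VarClass k} {ops : CycleOps 𝒱}

/-- **The explicit quantization law for the common Tate classes.** -/
theorem result {ι Γ : Type} [Group Γ] {W : WeilCohomology.{u, 0} ops} {L : ι → Type}
    [∀ i, Field (L i)] [∀ i, Algebra W.K (L i)] (A : ∀ i, GalAction Γ W (L i)) (i : ι)
    (X : 𝒱.Obj) (hX : 0 < finrank W.K (W.H X)) (m : ℕ) (hm : 1 ≤ m) :
    (DefinedOverQ A i (pw X (2 * m - 1)) ∨
      rankBy (IsCommon A) (pw X (2 * m - 1)) < tateDim (A i) (pw X (2 * m - 1))) ∧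
    ∀ r : ℕ, 1 ≤ r →
      (r - 1) * rankBy (IsCommon A) (pw X (2 * m - 1)) < tateDim (A i) (pw X (2 * m - 1)) →
      ∀ Z : 𝒱.Obj, AtMostOneOver r (fun n => rankBy (IsCommon A) ((pw X n).prod (Z.prod Z)))
        (fun n => tateDim (A i) ((pw X n).prod (Z.prod Z)))
        (constant (finrank W.K (W.H X)) m) :=
  ⟨Pool.Agent.E8helper24.HP.Common.defined_or A i _, fun _ hr hlt Z =>
    Pool.Agent.E8helper24.HP.Common.common_quant A i hX hm hr hlt Z⟩

end Pool.Agent.Results.MP_e965d0_ag.QuantizationH24
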