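import Pool.Agent.E8helper24.QF.Law

/-!
# Common `ℚ`-form of the `ℓ`-adic monodromy groups: a zero-one law for rational Tate classes

Let `F` be a number field embedded in the field of complex numbers, `X` a smooth projective variety
over `F` (for instance an abelian variety), and consider the cohomology `H(Y(ℂ), ℚ)` of the
varieties `Y` over `F`. For each prime number `ℓ` the Galois group `Γ` acts on
`ℚ_ℓ ⊗ H(Y(ℂ), ℚ)`; the Tate classes for `ℓ` are the classes fixed by a subgroup of finite index of
`Γ` (if the Tate twist is taken into account); for `Y = A^n` these are the invariants of the identity
component of the Zariski closure of the image of the Galois group. We fix a set `ι` of prime numbers,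
for instance all prime numbers `ℓ ≥ ℓ₀`. A rational class is a *common Tate class* if it is a Tate
class for all primes in `ι`.

For an abelian variety `A` and `ι = {ℓ ≥ ℓ₀}` there is an algebraic group `G` over `ℚ` such that
`G_{ℚ_ℓ}` is the identity component for all `ℓ ≥ ℓ₀` if and only if for all `ℓ ≥ ℓ₀` and all
`n` the Tate classes for `ℓ` on `A^n` are linear combinations of common Tate classes (if `G` exists,
its invariants are common Tate classes; conversely, since the monodromy groups are reductive by the
theorem of Faltings, they are determined by their invariants, so that the group of the elements of
`GSp` which fix all common Tate classes is a common `ℚ`-form).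

**Theorem.** For each `X` and each prime in `ι` one of the following holds:

1. for all `n`, ALL Tate classes for this prime on `X^n` are linear combinations of common Tate
   classes; or
2. the rank of the intersection form on the common Tate classes on `X^n`, divided by the dimension of
   the space of all Tate classes for this prime on `X^n`, tends to ZERO for `n → ∞`; moreover for each
   natural number `r ≥ 1` there is a constant `C` such that this quotient is at most
   `1 / r + C log (n + 2) / (n + 1)` on all varieties `X^(n+1) × Z × Z`, for all `n` and for ALL
   varieties `Z`.

So if `A` has no common `ℚ`-form then for each `ℓ₀` there is a prime `ℓ ≥ ℓ₀` such that 0 percent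
of the `ℓ`-adic Tate classes on `A^n` come from common Tate classes, with the bound in 2. Conversely,
to prove that the common `ℚ`-form exists it is sufficient to find for each prime number `ℓ ≥ ℓ₀`
common Tate classes which make up one percent of the Tate classes on infinitely many powers `A^n`.

The theorem holds for arbitrary families (over any index set, for instance a single prime) of
actions of a group on a cohomology theory with rational coefficients, after an extension of the
coefficients to fields which can be embedded in `ℂ`.

The proof. If 2 does not hold then the Tate classes on all powers are generated by those on one power
`P` of `X` under correspondences which are common Tate classes. We extend the coefficients to `ℂ` by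
arbitrary embeddings. Since the matrix coefficients of `Γ` on the powers of `X` generate a
Noetherian algebra there is one subgroup `Γ'` of finite index which fixes all common Tate classes on
the powers of `X`. The linear relations between finitely many elements of `Γ'`, acting on the
cohomology of `P`, are inherited by all Tate classes for `ℓ` on all powers, in particular by the
external powers of a Tate class `v`; since the external powers of different classes are linearly
independent the orbit of `v` under `Γ'` is finite, also for the action of `Γ'` for the other primes
and for all conjugates of `v` under the automorphisms of `ℂ`. So all these conjugates are Tate classes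
for all primes, and by descent `v` is a combination of common Tate classes.
-/

open CategoryTheory AlgebraicGeometry

universe u

namespace Pool.Agent.Results.MP_e965d0_ag.ZeroOneRationalTateH24

open Pool.Agent.H914 Pool.Agent.H914.VarClass Pool.Agent.H914.VarClass.Obj
  Pool.Agent.H914.WeilCohomology Pool.Agent.E8helper24.QF
open Pool.Agent.Y133.Half (pw)

variable {k : Type u} [Field k] {𝒱 : VarClass k} {ops : CycleOps 𝒱}

/-- **The zero-one law for the common Tate classes.** -/
theorem result {ι Γ : Type} [Group Γ] {W : WeilCohomology.{u, 0} ops}
    (hW : ∀ r : W.K, ∃ q : ℚ, (q : W.K) = r) {L : ι → Type} [∀ i, Field (L i)]
    [∀ i, Algebra W.K (L i)] (hL : ∀ i, Nonempty (L i →+* ℂ)) (A : ∀ i, GalAction Γ W (L i))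
    (X : 𝒱.Obj) [Nontrivial (W.H X)] (i : ι) :
    (∀ n, DefinedOverQ A i (pw X n)) ∨ FewCommon A i X :=
  zero_one A hW hL i X

end Pool.Agent.Results.MP_e965d0_ag.ZeroOneRationalTateH24
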